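import Pool.Agent.OPG.Stmts

set_option autoImplicit false

namespace Pool.Agent.OPG.H77

open Finset

theorem grd_append (L L' : List (ℕ × ℕ)) : lsum (L ++ L') = lsum L + lsum L' := by
  unfold lsum
  rw [List.map_append, List.sum_append]

theorem grd_cons (x : ℕ × ℕ) (L : List (ℕ × ℕ)) :
    lsum (x :: L) = (Real.log x.1 - Real.log x.2) + lsum L := by
  unfold lsum
  rw [List.map_cons, List.sum_cons]

theorem grd_swap (L : List (ℕ × ℕ)) : lsum (L.map Prod.swap) = - lsum L := by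
  induction L with
  | nil => simp [lsum]
  | cons x L ih =>
    rw [List.map_cons, grd_cons, grd_cons, ih, Prod.fst_swap, Prod.snd_swap]
    ring

/-- the entries are odd and between `P` and `P + 2R` -/
def Ent (P R : ℕ) (L : List (ℕ × ℕ)) : Prop :=
  ∀ x ∈ L, Odd x.1 ∧ Odd x.2 ∧ P ≤ x.1 ∧ x.1 ≤ P + 2 * R ∧ P ≤ x.2 ∧ x.2 ≤ P + 2 * R

theorem grd_term (P R a b : ℕ) (hP : 1 ≤ P) (h1 : P ≤ b) (h2 : a ≤ P + 2 * R) (h3 : P ≤ a) :
    Real.log a - Real.log b ≤ 2 * R / P := by
  have hP' : (0 : ℝ) < P := by exact_mod_cast hP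
  have h4 : Real.log a ≤ Real.log ((P : ℝ) + 2 * R) :=
    Real.log_le_log (by exact_mod_cast (by omega : 0 < a)) (by exact_mod_cast h2)
  have h5 : Real.log P ≤ Real.log b := Real.log_le_log hP' (by exact_mod_cast h1)
  have h6 : (P : ℝ) + 2 * R = P * (1 + 2 * R / P) := by field_simp
  have h7 : Real.log ((P : ℝ) + 2 * R) = Real.log P + Real.log (1 + 2 * R / P) := by
    rw [h6, Real.log_mul hP'.ne' (by positivity)]
  have h8 := Real.log_le_sub_one_of_pos (x := 1 + 2 * (R : ℝ) / P) (by positivity)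
  linarith

theorem grd_bd (P R : ℕ) (hP : 1 ≤ P) (L : List (ℕ × ℕ)) (hL : Ent P R L) :
    |lsum L| ≤ L.length * (2 * R / P) := by
  induction L with
  | nil => simp [lsum]
  | cons x L ih =>
    have h1 := ih (fun y hy => hL y (List.mem_cons_of_mem _ hy))
    obtain ⟨_, _, h2, h3, h4, h5⟩ := hL x List.mem_cons_self
    have h6 := grd_term P R x.1 x.2 hP h4 h3 h2
    have h7 := grd_term P R x.2 x.1 hP h2 h5 h4
    rw [grd_cons, List.length_cons, Nat.cast_succ]
    rw [abs_le] at h1 ⊢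
    constructor
    · linarith [h1.1]
    · linarith [h1.2]

theorem grd_copies (P R : ℕ) (hP : 1 ≤ P) (θ ρ η : ℝ) (hρ : 0 ≤ ρ)
    (Λ : List (ℕ × ℕ)) (hΛ : Ent P R Λ) (hs : lsum Λ = ρ)
    (hη : (Λ.length : ℝ) * (2 * R / P) ≤ η)
    (L : List (ℕ × ℕ)) (hL : Ent P R L) (ht : ∀ n, |lsum (L.take n)| ≤ θ + η)
    (h0 : 0 ≤ lsum L) (n : ℕ) : n * ρ ≤ θ - lsum L →
    ∃ L' : List (ℕ × ℕ), L'.length = L.length + n * Λ.length ∧ Ent P R L' ∧
      (∀ m, |lsum (L'.take m)| ≤ θ + η) ∧ lsum L' = lsum L + n * ρ := by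
  induction n with
  | zero =>
    intro _
    exact ⟨L, by simp, hL, ht, by simp⟩
  | succ n ih =>
    intro hn
    have hn' : ((n : ℕ) : ℝ) * ρ ≤ θ - lsum L := by
      rw [Nat.cast_succ] at hn; linarith
    obtain ⟨L', h1, h2, h3, h4⟩ := ih hn'
    refine ⟨L' ++ Λ, ?_, ?_, ?_, ?_⟩
    · rw [List.length_append, h1]; ring
    · intro x hx
      rcases List.mem_append.mp hx with hx | hx
      · exact h2 x hx
      · exact hΛ x hx
    · intro m
      rw [List.take_append]
      by_cases hm : m ≤ L'.length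
      · rw [Nat.sub_eq_zero_of_le hm, List.take_zero, List.append_nil]
        exact h3 m
      · rw [List.take_of_length_le (by omega), grd_append]
        have h5 : Ent P R (Λ.take (m - L'.length)) := fun x hx => hΛ x (List.mem_of_mem_take hx)
        have h6 := grd_bd P R hP _ h5
        have h7 : ((Λ.take (m - L'.length)).length : ℝ) ≤ Λ.length := by
          rw [List.length_take]; exact_mod_cast Nat.min_le_right _ _
        have h8 : ((Λ.take (m - L'.length)).length : ℝ) * (2 * R / P) ≤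
            (Λ.length : ℝ) * (2 * R / P) := mul_le_mul_of_nonneg_right h7 (by positivity)
        have h9 : |lsum (Λ.take (m - L'.length))| ≤ η := h6.trans (h8.trans hη)
        have h10 : 0 ≤ (n : ℝ) * ρ := by positivity
        rw [abs_le] at h9 ⊢
        rw [h4]
        constructor
        · linarith [h9.1]
        · linarith [h9.2]
    · rw [grd_append, h4, hs, Nat.cast_succ]; ring

theorem grd (hF : FdlStmt) (hS : LstStmt) : GrdStmt := by
  intro R θ hR hθ
  obtain ⟨T, hT⟩ := exists_nat_ge (θ + 1)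
  have hfac : 1 ≤ 2 ^ R * R.factorial := Nat.mul_pos (by positivity) (Nat.factorial_pos R)
  refine ⟨T * 4 ^ R + 2 ^ R * R.factorial + 2 ^ R * (4 * R), by omega, ?_⟩
  intro P hPC hodd
  have h2R : 1 ≤ 2 ^ R := Nat.one_le_two_pow
  have hP4 : 2 ^ R * (4 * R) ≤ P := by omega
  have hP2R : 2 * R ≤ P := by nlinarith
  have hP1 : 1 ≤ P := by omega
  have hPpos : (0 : ℝ) < P := by exact_mod_cast hP1
  set η : ℝ := 2 ^ R * (2 * R / P) with hη
  have hηlog : η ≤ Real.log 2 := by
    have h1 : ((2 : ℝ) ^ R * (4 * R)) ≤ P := by exact_mod_cast hP4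
    have h2 : η ≤ 1 / 2 := by
      rw [hη, ← mul_div_assoc, div_le_iff₀ hPpos]
      linarith
    linarith [Real.log_two_gt_d9]
  have hη0 : 0 ≤ η := by positivity
  set ρ : ℕ → ℝ := fun l => if l = 0 then θ + 1 else |FD l P| with hρ
  have hρ1 : ∀ l, 1 ≤ l → ρ l = |FD l P| := by
    intro l hl
    simp only [hρ]
    rw [if_neg (by omega)]
  have hlow : ∀ l, 1 ≤ l → l ≤ R → ((l - 1).factorial : ℝ) / (P : ℝ) ^ l ≤ ρ l ∧
      ρ l ≤ 2 ^ l * ((l - 1).factorial : ℝ) / (P : ℝ) ^ l := by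
    intro l hl hlR
    rw [hρ1 l hl]
    have h1 : 2 * (l : ℝ) ≤ P := by exact_mod_cast (by omega : 2 * l ≤ P)
    exact hF l P hl h1
  have hpos : ∀ l, 1 ≤ l → l ≤ R → 0 < ρ l := by
    intro l hl hlR
    refine lt_of_lt_of_le ?_ (hlow l hl hlR).1
    have : 0 < ((l - 1).factorial : ℝ) := by exact_mod_cast Nat.factorial_pos _
    positivity
  have hratio : ∀ l, l + 1 ≤ R → ρ l ≤ (θ + 1) * 2 ^ l * P * ρ (l + 1) := by
    intro l hl
    have h1 := (hlow (l + 1) (by omega) hl).1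
    rw [Nat.add_sub_cancel] at h1
    have h2 : (l.factorial : ℝ) / (P : ℝ) ^ l ≤ P * ρ (l + 1) := by
      have h3 := mul_le_mul_of_nonneg_left h1 hPpos.le
      have h4 : (P : ℝ) * ((l.factorial : ℝ) / (P : ℝ) ^ (l + 1)) =
          (l.factorial : ℝ) / (P : ℝ) ^ l := by
        rw [pow_succ]; field_simp
      rw [h4] at h3
      exact h3
    rcases Nat.eq_zero_or_pos l with h0 | h0
    · subst h0
      simp only [Nat.factorial_zero, Nat.cast_one, pow_zero, div_one, zero_add] at h2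
      have h3 : ρ 0 = θ + 1 := by simp [hρ]
      rw [h3, pow_zero, mul_one, zero_add]
      nlinarith
    · have h3 := (hlow l h0 (by omega)).2
      have h4 : ((l - 1).factorial : ℝ) ≤ (l.factorial : ℝ) := by
        exact_mod_cast Nat.factorial_le (by omega)
      have h5 : 2 ^ l * ((l - 1).factorial : ℝ) / (P : ℝ) ^ l ≤
          2 ^ l * ((l.factorial : ℝ) / (P : ℝ) ^ l) := by
        rw [mul_div_assoc]
        gcongr
      have h6 : (2 : ℝ) ^ l * ((l.factorial : ℝ) / (P : ℝ) ^ l) ≤ 2 ^ l * (P * ρ (l + 1)) :=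
        mul_le_mul_of_nonneg_left h2 (by positivity)
      have h7 : (2 : ℝ) ^ l * (P * ρ (l + 1)) ≤ (θ + 1) * (2 ^ l * (P * ρ (l + 1))) := by
        have h8 : 0 ≤ (2 : ℝ) ^ l * (P * ρ (l + 1)) := by
          have := (hpos (l + 1) (by omega) hl).le
          positivity
        nlinarith
      calc ρ l ≤ _ := h3
        _ ≤ _ := h5
        _ ≤ _ := h6
        _ ≤ _ := h7
        _ = (θ + 1) * 2 ^ l * P * ρ (l + 1) := by ring
  have key : ∀ l, l ≤ R → ∃ L : List (ℕ × ℕ), (L.length : ℝ) ≤ (θ + 1) * 4 ^ l * P ∧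
      Ent P R L ∧ (∀ n, |lsum (L.take n)| ≤ θ + η) ∧ 0 ≤ lsum L ∧ lsum L ≤ θ ∧
      θ - lsum L < ρ l := by
    intro l
    induction l with
    | zero =>
      intro _
      refine ⟨[], ?_, ?_, ?_, ?_, ?_, ?_⟩
      · simp only [List.length_nil, Nat.cast_zero]; positivity
      · intro x hx; simp at hx
      · intro n
        simp only [List.take_nil, lsum, List.map_nil, List.sum_nil, abs_zero]
        linarith
      · simp [lsum]
      · simpa [lsum] using hθ
      · simp [lsum, hρ]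
    | succ l ih =>
      intro hl
      obtain ⟨L, h1, h2, h3, h4, h5, h6⟩ := ih (by omega)
      obtain ⟨Λ₀, hΛl, hΛe, hΛs⟩ := hS (l + 1) P (by omega) hodd
      have hρ' := hpos (l + 1) (by omega) hl
      obtain ⟨Λ, g1, g2, g3⟩ : ∃ Λ : List (ℕ × ℕ), Λ.length = 2 ^ l ∧ Ent P R Λ ∧
          lsum Λ = ρ (l + 1) := by
        rw [hρ1 (l + 1) (by omega)]
        rcases le_or_gt 0 (FD (l + 1) P) with hs | hs
        · refine ⟨Λ₀, by rw [hΛl, Nat.add_sub_cancel], ?_, by rw [hΛs, abs_of_nonneg hs]⟩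
          intro x hx
          obtain ⟨a1, a2, a3, a4, a5, a6⟩ := hΛe x hx
          exact ⟨a1, a2, a3, by omega, a5, by omega⟩
        · refine ⟨Λ₀.map Prod.swap, by rw [List.length_map, hΛl, Nat.add_sub_cancel], ?_,
            by rw [grd_swap, hΛs, abs_of_neg hs]⟩
          intro x hx
          obtain ⟨y, hy, rfl⟩ := List.mem_map.mp hx
          obtain ⟨a1, a2, a3, a4, a5, a6⟩ := hΛe y hy
          exact ⟨a2, a1, a5, by rw [Prod.fst_swap]; omega, a3, by rw [Prod.snd_swap]; omega⟩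
      have hr0 : 0 ≤ θ - lsum L := by linarith
      set n : ℕ := ⌊(θ - lsum L) / ρ (l + 1)⌋₊ with hn
      have hn1 : (n : ℝ) * ρ (l + 1) ≤ θ - lsum L := by
        have := Nat.floor_le (div_nonneg hr0 hρ'.le)
        rwa [← hn, le_div_iff₀ hρ'] at this
      have hn2 : θ - lsum L < ((n : ℝ) + 1) * ρ (l + 1) := by
        have := Nat.lt_floor_add_one ((θ - lsum L) / ρ (l + 1))
        rwa [← hn, div_lt_iff₀ hρ'] at this
      have hη' : (Λ.length : ℝ) * (2 * R / P) ≤ η := by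
        rw [hη, g1]
        push_cast
        have : (2 : ℝ) ^ l ≤ 2 ^ R := pow_le_pow_right₀ (by norm_num) (by omega)
        gcongr
      obtain ⟨L', b1, b2, b3, b4⟩ := grd_copies P R hP1 θ (ρ (l + 1)) η hρ'.le Λ g2 g3 hη' L h2
        h3 h4 n hn1
      have hnn : (n : ℝ) ≤ (θ + 1) * 2 ^ l * P := by
        have h7 : (n : ℝ) * ρ (l + 1) ≤ ((θ + 1) * 2 ^ l * P) * ρ (l + 1) := by
          linarith [hratio l hl]
        exact le_of_mul_le_mul_right h7 hρ'
      refine ⟨L', ?_, b2, b3, ?_, ?_, ?_⟩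
      · rw [b1, g1]
        push_cast
        have h8 : (n : ℝ) * 2 ^ l ≤ ((θ + 1) * 2 ^ l * P) * 2 ^ l :=
          mul_le_mul_of_nonneg_right hnn (by positivity)
        have h9 : ((θ + 1) * 2 ^ l * P) * 2 ^ l = (θ + 1) * 4 ^ l * P := by
          have : (4 : ℝ) ^ l = 2 ^ l * 2 ^ l := by rw [← mul_pow]; norm_num
          rw [this]; ring
        have h10 : 0 ≤ (θ + 1) * 4 ^ l * (P : ℝ) := by positivity
        have h11 : (θ + 1) * 4 ^ (l + 1) * (P : ℝ) = 4 * ((θ + 1) * 4 ^ l * P) := by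
          rw [pow_succ]; ring
        rw [h11]
        linarith
      · rw [b4]; positivity
      · rw [b4]; linarith
      · rw [b4]; linarith
  obtain ⟨L, h1, h2, h3, h4, h5, h6⟩ := key R le_rfl
  refine ⟨L, ?_, ?_, ?_, ?_⟩
  · have h7 : (L.length : ℝ) ≤ ((T * 4 ^ R * P : ℕ) : ℝ) := by
      push_cast
      refine h1.trans ?_
      gcongr
    have h8 : L.length ≤ T * 4 ^ R * P := by exact_mod_cast h7
    refine h8.trans ?_
    apply Nat.mul_le_mul_right
    omega
  · intro x hx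
    obtain ⟨a1, a2, a3, a4, a5, a6⟩ := h2 x hx
    exact ⟨a1, a2, a3, by omega, a5, by omega⟩
  · intro n
    linarith [h3 n]
  · have h7 := (hlow R hR le_rfl).2
    have h8 : |lsum L - θ| ≤ ρ R := by
      rw [abs_le]; constructor <;> linarith
    refine h8.trans (h7.trans ?_)
    have h9 : (2 : ℝ) ^ R * ((R - 1).factorial : ℝ) ≤
        ((T * 4 ^ R + 2 ^ R * R.factorial + 2 ^ R * (4 * R) : ℕ) : ℝ) := by
      have h10 : 2 ^ R * (R - 1).factorial ≤
          T * 4 ^ R + 2 ^ R * R.factorial + 2 ^ R * (4 * R) := by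
        have h11 : 2 ^ R * (R - 1).factorial ≤ 2 ^ R * R.factorial :=
          Nat.mul_le_mul_left _ (Nat.factorial_le (by omega))
        omega
      exact_mod_cast h10
    exact div_le_div_of_nonneg_right h9 (by positivity)

end Pool.Agent.OPG.H77
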